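import Pool.Agent.W_012456_h37.Core

set_option autoImplicit false

namespace Pool.Agent.W_012456_h37

/-- First colour of block `(i, j)`. -/
def ci (i : Bool) : ℕ := if i then 1 else 0

/-- Second colour of block `(i, j)`. -/
def cj (j : Bool) : ℕ := if j then 3 else 2

/-- The lists of size two. -/
def L2 : Vtx → Finset ℕ
  | Sum.inl false => {ci false, ci true}
  | Sum.inl true => {cj false, cj true}
  | Sum.inr x => {ci x.1.1, cj x.1.2}

theorem ci_ne_cj (i j : Bool) : ci i ≠ cj j := by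
  cases i <;> cases j <;> decide

theorem card_L2 (x : Vtx) : (L2 x).card = 2 := by
  rcases x with (x | ⟨⟨i, j⟩, k⟩)
  · cases x <;> rfl
  · exact Finset.card_pair (ci_ne_cj i j)

variable {S : Finset Vtx} {c : Vtx → ℕ}

/-- The number of coloured vertices of a block. -/
def nb (S : Finset Vtx) (s : Bool × Bool) : ℕ :=
  (if (Sum.inr (s, 0) : Vtx) ∈ S then 1 else 0) + (if (Sum.inr (s, 1) : Vtx) ∈ S then 1 else 0)
    + (if (Sum.inr (s, 2) : Vtx) ∈ S then 1 else 0)

/-- At most two vertices of a block are coloured. -/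
theorem nb_le_two (h1 : ∀ x ∈ S, c x ∈ L2 x)
    (h2 : ∀ x ∈ S, ∀ y ∈ S, H.Adj x y → c x ≠ c y) (s : Bool × Bool) : nb S s ≤ 2 := by
  unfold nb
  by_cases h0 : (Sum.inr (s, 0) : Vtx) ∈ S
  · by_cases h1' : (Sum.inr (s, 1) : Vtx) ∈ S
    · by_cases h2' : (Sum.inr (s, 2) : Vtx) ∈ S
      · exfalso
        have a0 := h1 _ h0
        have a1 := h1 _ h1'
        have a2 := h1 _ h2'
        simp only [L2, Finset.mem_insert, Finset.mem_singleton] at a0 a1 a2
        have e01 := h2 _ h0 _ h1' ⟨rfl, by simp⟩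
        have e02 := h2 _ h0 _ h2' ⟨rfl, by simp⟩
        have e12 := h2 _ h1' _ h2' ⟨rfl, by simp⟩
        rcases a0 with a0 | a0 <;> rcases a1 with a1 | a1 <;> rcases a2 with a2 | a2 <;>
          simp_all
      · simp [h0, h1', h2']
    · by_cases h2' : (Sum.inr (s, 2) : Vtx) ∈ S <;> simp [h0, h1', h2']
  · by_cases h1' : (Sum.inr (s, 1) : Vtx) ∈ S <;>
      by_cases h2' : (Sum.inr (s, 2) : Vtx) ∈ S <;> simp [h0, h1', h2']

/-- If `v` and `w` are both coloured, then some block has at most one coloured vertex. -/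
theorem exists_nb_le_one (h1 : ∀ x ∈ S, c x ∈ L2 x)
    (h2 : ∀ x ∈ S, ∀ y ∈ S, H.Adj x y → c x ≠ c y)
    (hv : (Sum.inl false : Vtx) ∈ S) (hw : (Sum.inl true : Vtx) ∈ S) :
    ∃ s : Bool × Bool, nb S s ≤ 1 := by
  have a := h1 _ hv
  have b := h1 _ hw
  simp only [L2, Finset.mem_insert, Finset.mem_singleton] at a b
  have ha : ∃ i, c (Sum.inl false) = ci i := by
    rcases a with a | a
    · exact ⟨_, a⟩
    · exact ⟨_, a⟩
  have hb : ∃ j, c (Sum.inl true) = cj j := by
    rcases b with b | b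
    · exact ⟨_, b⟩
    · exact ⟨_, b⟩
  obtain ⟨i, hi⟩ := ha
  obtain ⟨j, hj⟩ := hb
  refine ⟨(i, j), ?_⟩
  have no : ∀ k : Fin 3, k ≠ 2 → (Sum.inr ((i, j), k) : Vtx) ∉ S := by
    intro k hk hmem
    have e1 := h1 _ hmem
    simp only [L2, Finset.mem_insert, Finset.mem_singleton] at e1
    have e2 := h2 _ hv _ hmem hk
    have e3 := h2 _ hw _ hmem hk
    rcases e1 with e1 | e1
    · exact e2 (hi.trans e1.symm)
    · exact e3 (hj.trans e1.symm)
  unfold nb
  rw [if_neg (no 0 (by decide)), if_neg (no 1 (by decide))]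
  split_ifs <;> omega

/-- At most nine vertices are coloured. -/
theorem card_le_nine (h1 : ∀ x ∈ S, c x ∈ L2 x)
    (h2 : ∀ x ∈ S, ∀ y ∈ S, H.Adj x y → c x ≠ c y) : S.card ≤ 9 := by
  classical
  have hsum : S.card = (if (Sum.inl false : Vtx) ∈ S then 1 else 0)
      + (if (Sum.inl true : Vtx) ∈ S then 1 else 0)
      + (nb S (false, false) + nb S (false, true) + nb S (true, false) + nb S (true, true)) := by
    have : S.card = ∑ x : Vtx, if x ∈ S then 1 else 0 := by
      rw [Finset.sum_boole]; simp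
    rw [this, Fintype.sum_sum_type, Fintype.sum_prod_type, Fintype.sum_prod_type]
    simp only [Fintype.sum_bool, Fin.sum_univ_three, nb]
    ring
  have b1 := nb_le_two h1 h2 (false, false)
  have b2 := nb_le_two h1 h2 (false, true)
  have b3 := nb_le_two h1 h2 (true, false)
  have b4 := nb_le_two h1 h2 (true, true)
  by_cases hv : (Sum.inl false : Vtx) ∈ S
  · by_cases hw : (Sum.inl true : Vtx) ∈ S
    · obtain ⟨⟨i, j⟩, hs⟩ := exists_nb_le_one h1 h2 hv hw
      rw [hsum, if_pos hv, if_pos hw]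
      cases i <;> cases j <;> omega
    · rw [hsum, if_pos hv, if_neg hw]; omega
  · rw [hsum, if_neg hv]
    split_ifs <;> omega

end Pool.Agent.W_012456_h37
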