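import Mathlib

set_option autoImplicit false

/-! A graph on 14 vertices which refutes the partial list colouring conjecture of
Albertson, Grossman and Haas: vertices `v`, `w` and four triangles `{p, q, t}` indexed by two
booleans; `v` and `w` are adjacent to `p` and `q` of every triangle.  It is 3-choosable, but for
suitable 2-element lists at most 9 of its 14 vertices can be coloured. -/

namespace Pool.Agent.W_012456_h37

/-- The vertices: `inl false = v`, `inl true = w`, `inr ((i, j), k)` = vertex `k` of block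
`(i, j)`, with `k = 0, 1` for `p, q` and `k = 2` for `t`. -/
abbrev Vtx : Type := Bool ⊕ ((Bool × Bool) × Fin 3)

/-- The adjacency relation. -/
def AdjR : Vtx → Vtx → Prop
  | Sum.inl _, Sum.inl _ => False
  | Sum.inl _, Sum.inr y => y.2 ≠ 2
  | Sum.inr x, Sum.inl _ => x.2 ≠ 2
  | Sum.inr x, Sum.inr y => x.1 = y.1 ∧ x.2 ≠ y.2

/-- The counterexample graph. -/
def H : SimpleGraph Vtx where
  Adj := AdjR
  symm := ⟨by
    rintro (x | x) (y | y) h
    · exact h
    · exact h
    · exact h
    · exact ⟨h.1.symm, fun e => h.2 e.symm⟩⟩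
  loopless := ⟨by
    rintro (x | x) h
    · exact h
    · exact h.2 rfl⟩

/-- Either the pair `p, q` can be coloured avoiding `a` and `b`, or both lists are equal and
contain `a` and `b`. -/
theorem block {P Q : Finset ℕ} (hP : P.card = 3) (hQ : Q.card = 3) (a b : ℕ) :
    (∃ x ∈ P, ∃ y ∈ Q, x ≠ y ∧ x ≠ a ∧ x ≠ b ∧ y ≠ a ∧ y ≠ b) ∨
      (a ≠ b ∧ P = Q ∧ a ∈ P ∧ b ∈ P) := by
  classical
  by_cases h : ∃ x ∈ P, ∃ y ∈ Q, x ≠ y ∧ x ≠ a ∧ x ≠ b ∧ y ≠ a ∧ y ≠ b
  · exact Or.inl h
  right
  push Not at h
  have hP' : 1 ≤ (P \ {a, b}).card := by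
    have := Finset.le_card_sdiff {a, b} P
    have h2 : ({a, b} : Finset ℕ).card ≤ 2 := Finset.card_le_two
    omega
  have hQ' : 1 ≤ (Q \ {a, b}).card := by
    have := Finset.le_card_sdiff {a, b} Q
    have h2 : ({a, b} : Finset ℕ).card ≤ 2 := Finset.card_le_two
    omega
  obtain ⟨x, hx⟩ := Finset.card_pos.mp (by omega : 0 < (P \ {a, b}).card)
  have key : ∀ x ∈ P \ {a, b}, ∀ y ∈ Q \ {a, b}, x = y := by
    intro x hx y hy
    simp only [Finset.mem_sdiff, Finset.mem_insert, Finset.mem_singleton, not_or] at hx hy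
    by_contra hne
    exact hy.2.2 (h x hx.1 y hy.1 hne hx.2.1 hx.2.2 hy.2.1)
  obtain ⟨y, hy⟩ := Finset.card_pos.mp (by omega : 0 < (Q \ {a, b}).card)
  have hxy := key x hx y hy
  subst hxy
  have hPs : P \ {a, b} = {x} := by
    apply Finset.eq_singleton_iff_unique_mem.mpr
    exact ⟨hx, fun z hz => key z hz x hy⟩
  have hQs : Q \ {a, b} = {x} := by
    apply Finset.eq_singleton_iff_unique_mem.mpr
    exact ⟨hy, fun z hz => (key x hx z hz).symm⟩
  -- every list of size three with one element outside {a,b} is {x,a,b}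
  have gen : ∀ R : Finset ℕ, R.card = 3 → R \ {a, b} = {x} → R = {x, a, b} ∧ a ≠ b := by
    intro R hR hRs
    have hsub : R ⊆ {x, a, b} := by
      intro z hz
      by_cases hz' : z ∈ ({a, b} : Finset ℕ)
      · exact Finset.mem_insert_of_mem hz'
      · have : z ∈ R \ {a, b} := Finset.mem_sdiff.mpr ⟨hz, hz'⟩
        rw [hRs, Finset.mem_singleton] at this
        rw [this]; exact Finset.mem_insert_self _ _
    have hc3 : ({x, a, b} : Finset ℕ).card ≤ 3 := Finset.card_le_three
    have heq : R = {x, a, b} := Finset.eq_of_subset_of_card_le hsub (by omega)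
    refine ⟨heq, ?_⟩
    intro hab
    rw [heq, hab] at hR
    have : ({x, b, b} : Finset ℕ).card ≤ 2 := by
      have : ({x, b, b} : Finset ℕ) = {x, b} := by ext; simp
      rw [this]; exact Finset.card_le_two
    omega
  obtain ⟨e1, hab⟩ := gen P hP hPs
  obtain ⟨e2, _⟩ := gen Q hQ hQs
  exact ⟨hab, e1.trans e2.symm, by rw [e1]; simp, by rw [e1]; simp⟩

/-- A list of size three meets the two disjoint lists in at most two pairs. -/
theorem card_bad {A B P : Finset ℕ} (hP : P.card = 3) (hAB : Disjoint A B) :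
    ((A ∩ P) ×ˢ (B ∩ P)).card ≤ 2 := by
  classical
  rw [Finset.card_product]
  have h1 : (A ∩ P).card + (B ∩ P).card ≤ 3 := by
    rw [← hP, ← Finset.card_union_of_disjoint
      (Finset.disjoint_of_subset_left Finset.inter_subset_left
        (Finset.disjoint_of_subset_right Finset.inter_subset_left hAB))]
    apply Finset.card_le_card
    intro z hz
    rcases Finset.mem_union.mp hz with h | h
    · exact (Finset.mem_inter.mp h).2
    · exact (Finset.mem_inter.mp h).2
  generalize (A ∩ P).card = m at h1 ⊢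
  generalize (B ∩ P).card = n at h1 ⊢
  have hm : m ≤ 3 := by omega
  interval_cases m <;> omega

/-- The graph is 3-choosable. -/
theorem choosable (L : Vtx → Finset ℕ) (hL : ∀ x, (L x).card = 3) :
    ∃ c : Vtx → ℕ, (∀ x, c x ∈ L x) ∧ ∀ x y, H.Adj x y → c x ≠ c y := by
  classical
  -- colours of v and w such that every block can be coloured
  have main : ∃ a ∈ L (Sum.inl false), ∃ b ∈ L (Sum.inl true), ∀ s : Bool × Bool,
      ∃ x ∈ L (Sum.inr (s, 0)), ∃ y ∈ L (Sum.inr (s, 1)),
        x ≠ y ∧ x ≠ a ∧ x ≠ b ∧ y ≠ a ∧ y ≠ b := by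
    by_cases hd : Disjoint (L (Sum.inl false)) (L (Sum.inl true))
    · by_contra hcon
      push Not at hcon
      have hsub : (L (Sum.inl false)) ×ˢ (L (Sum.inl true)) ⊆
          (Finset.univ : Finset (Bool × Bool)).biUnion (fun s =>
            (L (Sum.inl false) ∩ L (Sum.inr (s, 0))) ×ˢ
              (L (Sum.inl true) ∩ L (Sum.inr (s, 0)))) := by
        intro ab hab
        obtain ⟨ha, hb⟩ := Finset.mem_product.mp hab
        obtain ⟨s, hs⟩ := hcon ab.1 ha ab.2 hb
        have hbl := block (hL (Sum.inr (s, 0))) (hL (Sum.inr (s, 1))) ab.1 ab.2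
        rcases hbl with ⟨x, hx, y, hy, h1, h2, h3, h4, h5⟩ | ⟨_, _, h1, h2⟩
        · exact absurd h5 (by
            have := hs x hx y hy h1 h2 h3 h4
            exact fun h => h this)
        · refine Finset.mem_biUnion.mpr ⟨s, Finset.mem_univ _, ?_⟩
          exact Finset.mem_product.mpr
            ⟨Finset.mem_inter.mpr ⟨ha, h1⟩, Finset.mem_inter.mpr ⟨hb, h2⟩⟩
      have h1 := Finset.card_le_card hsub
      have h2 : ((Finset.univ : Finset (Bool × Bool)).biUnion (fun s =>
            (L (Sum.inl false) ∩ L (Sum.inr (s, 0))) ×ˢ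
              (L (Sum.inl true) ∩ L (Sum.inr (s, 0))))).card ≤
            (Finset.univ : Finset (Bool × Bool)).card * 2 :=
        Finset.card_biUnion_le_card_mul _ _ _ (fun s _ => card_bad (hL _) hd)
      rw [Finset.card_product, hL, hL] at h1
      have h3 : (Finset.univ : Finset (Bool × Bool)).card = 4 := by decide
      omega
    · rw [Finset.not_disjoint_iff] at hd
      obtain ⟨a, ha, hb⟩ := hd
      refine ⟨a, ha, a, hb, fun s => ?_⟩
      rcases block (hL (Sum.inr (s, 0))) (hL (Sum.inr (s, 1))) a a with h | h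
      · exact h
      · exact absurd rfl h.1
  obtain ⟨a, ha, b, hb, hs⟩ := main
  choose p hp q hq hpq hpa hpb hqa hqb using hs
  -- the third vertex of a block
  have ht : ∀ s : Bool × Bool, ∃ z ∈ L (Sum.inr (s, 2)), z ≠ p s ∧ z ≠ q s := by
    intro s
    have h1 := Finset.le_card_sdiff {p s, q s} (L (Sum.inr (s, 2)))
    have h2 : ({p s, q s} : Finset ℕ).card ≤ 2 := Finset.card_le_two
    rw [hL] at h1
    obtain ⟨z, hz⟩ := Finset.card_pos.mp
      (by omega : 0 < (L (Sum.inr (s, 2)) \ {p s, q s}).card)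
    simp only [Finset.mem_sdiff, Finset.mem_insert, Finset.mem_singleton, not_or] at hz
    exact ⟨z, hz.1, hz.2.1, hz.2.2⟩
  choose t ht htp htq using ht
  let c : Vtx → ℕ := fun x => match x with
    | Sum.inl false => a
    | Sum.inl true => b
    | Sum.inr (s, 0) => p s
    | Sum.inr (s, 1) => q s
    | Sum.inr (s, 2) => t s
  refine ⟨c, ?_, ?_⟩
  · rintro (x | ⟨s, k⟩)
    · cases x
      · exact ha
      · exact hb
    · fin_cases k
      · exact hp s
      · exact hq s
      · exact ht s
  · rintro (x | ⟨s, k⟩) (y | ⟨r, l⟩) hxy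
    · exact hxy.elim
    · have hl : l ≠ 2 := hxy
      cases x <;> fin_cases l
      · exact (hpa r).symm
      · exact (hqa r).symm
      · exact absurd rfl hl
      · exact (hpb r).symm
      · exact (hqb r).symm
      · exact absurd rfl hl
    · have hk : k ≠ 2 := hxy
      cases y <;> fin_cases k
      · exact hpa s
      · exact hqa s
      · exact absurd rfl hk
      · exact hpb s
      · exact hqb s
      · exact absurd rfl hk
    · have h1 : s = r := hxy.1
      have h2 : k ≠ l := hxy.2
      subst h1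
      fin_cases k <;> fin_cases l
      · exact absurd rfl h2
      · exact hpq s
      · exact (htp s).symm
      · exact (hpq s).symm
      · exact absurd rfl h2
      · exact (htq s).symm
      · exact htp s
      · exact htq s
      · exact absurd rfl h2

end Pool.Agent.W_012456_h37
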